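import Pool.Agent.Helper45.MC.All

set_option autoImplicit false

namespace Pool.Agent.Results.MP_87ad45_co.FiveTorsion

open Pool.Agent.Helper45.MC

/-- For every even `n ≥ 16`, the reduced homology group in degree `(n - 6) / 2` of the matching
complex `M_n`, with integer coefficients, contains an element of order five. -/
theorem result (n : ℕ) (hn : Even n) (h16 : 16 ≤ n) [LinearOrder (Sym2 (Fin n))] :
    ∃ x : ReducedHomology (matchingComplex n) ((n - 6) / 2), addOrderOf x = 5 :=
  five_torsion n hn (by omega)

end Pool.Agent.Results.MP_87ad45_co.FiveTorsion
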